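import Pool.Agent.Q260.DT.Stm

/-!
# Project DT, job DD: the dictionary
-/

set_option autoImplicit false

namespace Pool.Agent.Q237.DT

open Complex Filter Topology Metric Set MeasureTheory
open Pool.Agent.Q260.DS (Sys Nm EE NZ)
open Pool.Agent.Q260.DT

theorem t_DD (h1 : S_BW) (h2 : S_FW) : S_DD := by
  intro ϑ f l g hR a ε u ha hε hu
  obtain ⟨C2, hC2, hF⟩ := h2 ϑ f l g hR a ε u ha hε hu
  obtain ⟨C3, hC3⟩ := eventually_atTop.1 (hR.lim.eventually_ge_atTop 0)
  by_cases hres : u = -cexp (2 * I * ((ϑ * a : ℝ) : ℂ))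
  · refine ⟨max C2 C3, le_max_of_le_left hC2, fun h => absurd hres h, ?_⟩
    intro z σ hz hC hσ hσz hz2
    by_contra hcon
    push Not at hcon
    refine hF z.im σ ((le_max_left _ _).trans hC) hσ ?_ z rfl hσz hz2 hz
    intro w hw1 hw2 hw3
    have := hcon w hw3 hw1
    have h4 : C2 ≤ max C2 C3 := le_max_left _ _
    linarith
  · obtain ⟨C1, hC1, hB⟩ := h1 ϑ f l g hR a ε u ha hε hu hres
    refine ⟨max C1 (max C2 C3), le_max_of_le_left hC1, fun _ => ?_, ?_⟩
    · intro z σ hz hC hσ hσz
      by_contra hcon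
      push Not at hcon
      have h3 : C1 ≤ max C1 (max C2 C3) := le_max_left _ _
      have h4 : C3 ≤ max C1 (max C2 C3) := (le_max_right _ _).trans (le_max_right _ _)
      have h5 : 0 ≤ l z.im := hC3 _ (h4.trans hC)
      refine hB z.im σ (h3.trans hC) hσ ?_ z rfl hσz hz
      intro w hw1 hw2 hw3 hw4 hw5
      have h6 := hcon w hw5 hw1 hw2
      have h7 : |w.im - z.im| ≤ C1 * l z.im := by
        rw [abs_le]
        constructor <;> linarith
      have h8 : C1 * l z.im ≤ max C1 (max C2 C3) * l z.im := mul_le_mul_of_nonneg_right h3 h5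
      linarith
    · intro z σ hz hC hσ hσz hz2
      by_contra hcon
      push Not at hcon
      have h3 : C2 ≤ max C1 (max C2 C3) := (le_max_left _ _).trans (le_max_right _ _)
      refine hF z.im σ (h3.trans hC) hσ ?_ z rfl hσz hz2 hz
      intro w hw1 hw2 hw3
      have := hcon w hw3 hw1
      linarith

end Pool.Agent.Q237.DT
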