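import Pool.Agent.Q260.DT.Stm

/-!
# Project DT, job LI: on the line
-/

set_option autoImplicit false

namespace Pool.Agent.Q237.DT

open Complex Filter Topology Metric Set MeasureTheory
open Pool.Agent.Q260.DS (Sys Nm EE NZ It Li)
open Pool.Agent.Q260.DT
open scoped ComplexConjugate

/-- the absolute value grows if the real part of the logarithmic derivative is positive -/
theorem norm_lt_of_logDeriv {f : ℂ → ℂ} (hf : Differentiable ℂ f) {T p q : ℝ} (hpq : p < q)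
    (h0 : ∀ y ∈ Icc p q, f ((y : ℂ) + I * T) ≠ 0)
    (hq : ∀ y ∈ Icc p q, 0 < (logDeriv f ((y : ℂ) + I * T)).re) :
    ‖f ((p : ℂ) + I * T)‖ < ‖f ((q : ℂ) + I * T)‖ := by
  have hd : ∀ y : ℝ, HasDerivAt (fun y : ℝ => f ((y : ℂ) + I * T)) (deriv f ((y : ℂ) + I * T)) y := by
    intro y
    have h1 : HasDerivAt f (deriv f ((y : ℂ) + I * T)) ((y : ℂ) + I * T) := (hf _).hasDerivAt
    exact (h1.comp_add_const (y : ℂ) (I * T)).comp_ofReal
  have hG : ∀ y : ℝ, HasDerivAt (fun y : ℝ => ‖f ((y : ℂ) + I * T)‖ ^ 2)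
      (2 * inner ℝ (f ((y : ℂ) + I * T)) (deriv f ((y : ℂ) + I * T))) y := fun y => (hd y).norm_sq
  have hmono : StrictMonoOn (fun y : ℝ => ‖f ((y : ℂ) + I * T)‖ ^ 2) (Icc p q) := by
    apply strictMonoOn_of_deriv_pos (convex_Icc p q)
    · exact fun y _ => (hG y).continuousAt.continuousWithinAt
    · intro y hy
      have hy' : y ∈ Icc p q := interior_subset hy
      rw [(hG y).deriv, Complex.inner]
      have h2 := h0 y hy'
      have h3 := hq y hy'
      obtain ⟨w, hw⟩ : ∃ w, w = f ((y : ℂ) + I * T) := ⟨_, rfl⟩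
      obtain ⟨v, hv⟩ : ∃ v, v = logDeriv f ((y : ℂ) + I * T) := ⟨_, rfl⟩
      have h4 : deriv f ((y : ℂ) + I * T) = w * v := by
        rw [hv, logDeriv_apply, hw]
        field_simp
      rw [h4, ← hw]
      rw [← hw] at h2
      rw [← hv] at h3
      have h5 : (w * v * conj w).re = Complex.normSq w * v.re := by
        rw [mul_right_comm, Complex.mul_conj]
        exact Complex.re_ofReal_mul _ _
      rw [h5]
      have h6 : 0 < Complex.normSq w := Complex.normSq_pos.2 h2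
      positivity
  have h7 := hmono (left_mem_Icc.2 hpq.le) (right_mem_Icc.2 hpq.le) hpq
  simp only at h7
  exact lt_of_pow_lt_pow_left₀ 2 (norm_nonneg _) h7

theorem t_LI (h1 : Pool.Agent.Q260.DS.S_LB) (h2 : S_FW) (h3 : Pool.Agent.Q260.DS.S_RT) : S_LI := by
  intro ϑ f l g hR a θ T1 u hθ hθa hu hz
  have ha : 0 < a := lt_of_le_of_lt hθ hθa
  obtain ⟨K, A, y0, hK, hA, hS⟩ := hR.sys
  obtain ⟨θ', hθ'⟩ : ∃ θ' : ℝ, θ' = min θ (1 / 2) := ⟨_, rfl⟩
  have hθ0 : 0 ≤ θ' := by rw [hθ']; exact le_min hθ (by norm_num)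
  have hθ1 : θ' ≤ 1 := by rw [hθ']; exact (min_le_right _ _).trans (by norm_num)
  have hθ2 : θ' ≤ θ := by rw [hθ']; exact min_le_left _ _
  obtain ⟨δ, hδ⟩ : ∃ δ : ℝ, δ = min ((a - θ') / 4) (1 / 2) := ⟨_, rfl⟩
  have hδ0 : 0 < δ := by rw [hδ]; exact lt_min (by linarith) (by norm_num)
  have hδ1 : δ ≤ 1 / 2 := by rw [hδ]; exact min_le_right _ _
  have hδ2 : 4 * δ ≤ a - θ' := by
    have : δ ≤ (a - θ') / 4 := by rw [hδ]; exact min_le_left _ _
    linarith
  have hnz : ∀ z : ℂ, θ' < z.re → T1 ≤ z.im → f z ≠ 0 := by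
    intro z hz1 hz2
    rcases lt_or_ge (1 / 2) z.re with h | h
    · exact hR.nz z h
    · apply hz z _ hz2
      rw [hθ', min_lt_iff] at hz1
      rcases hz1 with h4 | h4
      · exact h4
      · linarith
  obtain ⟨C1, hC1, hLB⟩ := h1 K A 0 hK hA
  obtain ⟨C2, hC2, hFW⟩ := h2 ϑ f l g hR a δ u ha hδ0 hu
  obtain ⟨C3, hC3, hRT⟩ := h3 K A 2 (a + 1) 0 hK hA (by norm_num)
  have hLi : Li A 0 [] := ⟨rfl, fun c hc => by simp at hc⟩
  have ev1 : ∀ᶠ L : ℝ in atTop, EE C1 L δ < L := by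
    have hp : 0 < δ / C1 := by positivity
    filter_upwards [(tendsto_rpow_atTop hp).eventually_gt_atTop (C1 / δ ^ 2), eventually_gt_atTop 0] with L hL hL0
    unfold EE
    rw [Real.rpow_sub hL0, Real.rpow_one]
    have h4 : 0 < L ^ (δ / C1) := Real.rpow_pos_of_pos hL0 _
    calc C1 / δ ^ 2 * (L / L ^ (δ / C1)) = (C1 / δ ^ 2) / L ^ (δ / C1) * L := by ring
      _ < 1 * L := by
          gcongr
          rw [div_lt_one h4]
          exact hL
      _ = L := one_mul L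
  have ev2 : ∀ᶠ T : ℝ in atTop, EE C1 (l T) δ < l T ∧ C1 ≤ l T ∧ C3 + 1 ≤ l T ∧ C2 ≤ T ∧ T1 + C2 ≤ T ∧ T1 + 4 ≤ T :=
    (hR.lim.eventually ev1).and ((hR.lim.eventually_ge_atTop _).and ((hR.lim.eventually_ge_atTop _).and
      ((eventually_ge_atTop _).and ((eventually_ge_atTop _).and (eventually_ge_atTop _)))))
  obtain ⟨T2, hT2⟩ := eventually_atTop.1 ev2
  refine ⟨T2, fun z hz0 hz2 hzT => ?_⟩
  obtain ⟨e1, e2, e3, e4, e5, e6⟩ := hT2 z.im hzT
  rcases le_or_gt δ z.re with hδz | hδz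
  · -- away from the line
    refine hFW z.im 0 e4 le_rfl ?_ z rfl (by linarith) hz2
    intro w hw1 hw2
    rw [abs_le] at hw2
    exact hz w (by linarith) (by linarith [hw2.1])
  · -- near the line
    obtain ⟨x, hx⟩ : ∃ x : ℝ, x = z.re := ⟨_, rfl⟩
    obtain ⟨T, hT⟩ : ∃ T : ℝ, T = z.im := ⟨_, rfl⟩
    rw [← hx] at hz0 hz2 hδz
    rw [← hT] at e1 e2 e3 e4 e5 e6
    have hNZ : NZ f θ' (T - 4) (T + 4) := by
      intro w hw1 _ hw3 _
      exact hnz w hw1 (by linarith)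
    have hkey : ∀ y ∈ Icc (a - x) (a + x), f ((y : ℂ) + I * T) ≠ 0 ∧
        0 < (logDeriv f ((y : ℂ) + I * T)).re := by
      intro y hy
      have hy1 : θ' + δ ≤ y := by linarith [hy.1]
      have hb : f ((y : ℂ) + I * T) ≠ 0 ∧ ‖logDeriv f ((y : ℂ) + I * T) - (l T : ℂ)‖ < l T := by
        rcases le_or_gt y 3 with h3y | h3y
        · obtain ⟨b1, b2, b3⟩ := hLB y0 f l g hS [] hLi T θ' δ e2 hθ0 hθ1 hδ0 hδ1 hNZ y hy1 h3y
          exact ⟨b1, lt_of_le_of_lt b3 e1⟩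
        · obtain ⟨b1, b2, b3, b4⟩ := hRT y0 f l g hS [] hLi y T (by linarith) (by linarith) (by linarith [hy.2])
          exact ⟨b1, lt_of_le_of_lt b2 (by linarith)⟩
      refine ⟨hb.1, ?_⟩
      have h4 := (Complex.abs_re_le_norm _).trans_lt hb.2
      rw [Complex.sub_re, Complex.ofReal_re, abs_lt] at h4
      linarith [h4.1]
    have hlt := norm_lt_of_logDeriv hS.diff (show a - x < a + x by linarith)
      (fun y hy => (hkey y hy).1) (fun y hy => (hkey y hy).2)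
    intro hF
    unfold Fa at hF
    have hz' : z = (x : ℂ) + I * T := by
      apply Complex.ext <;> simp [hx, hT]
    have h5 : ‖f (z + a)‖ = ‖f (z - a)‖ := by
      have h6 : f (z + a) = -(u * f (z - a)) := eq_neg_of_add_eq_zero_left hF
      rw [h6, norm_neg, norm_mul, hu, one_mul]
    have h6 : ‖f (z - a)‖ = ‖f (((a - x : ℝ) : ℂ) + I * T)‖ := by
      rw [← hR.sym (z - a)]
      congr 2
      rw [hz']
      apply Complex.ext <;> simp
    have h7 : z + a = ((a + x : ℝ) : ℂ) + I * T := by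
      rw [hz']
      push_cast
      ring
    rw [h6, h7] at h5
    linarith

end Pool.Agent.Q237.DT
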